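import Pool.Agent.V5helper49.IR.Stm2
import Pool.Agent.V5helper72.IR.COV

/-! Project IR (helper49), job COV2 (helper36; adaptation of COV of helper72). -/

set_option autoImplicit false

namespace Pool.Agent.V5helper36.IR

open Finset
open Pool.Agent.V5helper49.IR
open Pool.Agent.V5helper72.IR (EB_mono EB_add EB_const EB_mem)

/-- the event `K ≤ rr k₀ n (B ∪ U)` -/
noncomputable def Gi (K k₀ n : ℕ) (U B : Finset ℕ) : ℝ := if K ≤ rr k₀ n (B ∪ U) then 1 else 0

theorem Gi_nonneg (K k₀ n : ℕ) (U B : Finset ℕ) : 0 ≤ Gi K k₀ n U B := by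
  unfold Gi; split_ifs <;> norm_num

theorem Gi_le_one (K k₀ n : ℕ) (U B : Finset ℕ) : Gi K k₀ n U B ≤ 1 := by
  unfold Gi; split_ifs <;> norm_num

/-- the weights -/
noncomputable def w (p : ℕ → ℝ) (M n : ℕ) (U : Finset ℕ) (k : ℕ) : ℝ :=
  if n < k then 0 else if M ≤ n - k then (if n - k ∈ U then 1 else 0) else if n - k = k then 0 else p (n - k)

theorem w_nonneg {p : ℕ → ℝ} (hp : ∀ k, 0 ≤ p k ∧ p k ≤ 1) (M n : ℕ) (U : Finset ℕ) (k : ℕ) :
    0 ≤ w p M n U k := by
  unfold w
  split_ifs
  · exact le_rfl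
  · norm_num
  · exact le_rfl
  · exact le_rfl
  · exact (hp _).1

theorem w_same (p : ℕ → ℝ) (M n : ℕ) (U : Finset ℕ) (k : ℕ) (hk : k < M) (hn : n ≠ k + M) :
    w p M n (insert M U) k = w p (M + 1) n U k ∧ w p M n U k = w p (M + 1) n U k := by
  unfold w
  by_cases h1 : n < k
  · simp [h1]
  · by_cases h2 : M + 1 ≤ n - k
    · have h3 : M ≤ n - k := by omega
      have h4 : n - k ≠ M := by omega
      simp only [h1, if_false, h2, h3, if_true, Finset.mem_insert, h4, false_or, and_self]
    · have h3 : ¬ M ≤ n - k := by omega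
      simp only [h1, if_false, h2, h3, and_self]

theorem w_spec (p : ℕ → ℝ) (M : ℕ) (U : Finset ℕ) (k : ℕ) (hk : k < M) (hU : ∀ u ∈ U, M + 1 ≤ u) :
    w p M (k + M) (insert M U) k = 1 ∧ w p M (k + M) U k = 0 ∧ w p (M + 1) (k + M) U k = p M := by
  have h1 : ¬ (k + M < k) := by omega
  have h2 : k + M - k = M := by omega
  have h3 : M ∉ U := fun h => by
    have := hU M h; omega
  have h4 : M ≠ k := by omega
  unfold w
  rw [h2]
  refine ⟨?_, ?_, ?_⟩
  · rw [if_neg h1, if_pos le_rfl, if_pos (Finset.mem_insert_self _ _)]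
  · rw [if_neg h1, if_pos le_rfl, if_neg h3]
  · rw [if_neg h1, if_neg (by omega), if_neg h4]

theorem rr_mono (k₀ n : ℕ) {B C : Finset ℕ} (h : B ⊆ C) : rr k₀ n B ≤ rr k₀ n C := by
  unfold rr
  apply Finset.card_le_card
  intro a ha
  simp only [Finset.mem_filter] at ha ⊢
  exact ⟨h ha.1, ha.2.1, ha.2.2.1, h ha.2.2.2⟩

theorem Gi_mono (K k₀ n M : ℕ) (U B : Finset ℕ) : Gi K k₀ n U B ≤ Gi K k₀ n (insert M U) B := by
  unfold Gi
  have h0 : rr k₀ n (B ∪ U) ≤ rr k₀ n (B ∪ insert M U) := rr_mono k₀ n (by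
    rw [Finset.union_insert]; exact Finset.subset_insert _ _)
  by_cases h : K ≤ rr k₀ n (B ∪ U)
  · rw [if_pos h, if_pos (h.trans h0)]
  · rw [if_neg h]
    split_ifs <;> norm_num

/-- if adding `M` matters then its partner is there -/
theorem Gi_diff (K k₀ n M : ℕ) (U B : Finset ℕ) (h : ¬ (M ≤ n ∧ n - M ∈ B ∪ U ∧ n - M ≠ M)) :
    Gi K k₀ n (insert M U) B ≤ Gi K k₀ n U B := by
  unfold Gi
  have h0 : rr k₀ n (B ∪ insert M U) ≤ rr k₀ n (B ∪ U) := by
    unfold rr
    apply Finset.card_le_card
    intro a ha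
    simp only [Finset.mem_filter, Finset.union_insert, Finset.mem_insert] at ha ⊢
    obtain ⟨h1, h2, h3, h4⟩ := ha
    have haM : a ≠ M := by
      rintro rfl
      apply h
      have h5 : n - a ≠ a := by omega
      exact ⟨by omega, h4.resolve_left h5, h5⟩
    have hbM : n - a ≠ M := by
      intro h5
      apply h
      have h6 : n - M = a := by omega
      refine ⟨by omega, ?_, ?_⟩
      · rw [h6]; exact h1.resolve_left haM
      · rw [h6]; exact haM
    exact ⟨h1.resolve_left haM, h2, h3, h4.resolve_left hbM⟩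
  by_cases h1 : K ≤ rr k₀ n (B ∪ insert M U)
  · rw [if_pos h1, if_pos (h1.trans h0)]
  · rw [if_neg h1]
    split_ifs <;> norm_num

theorem diff_le {p : ℕ → ℝ} (hp : ∀ k, 0 ≤ p k ∧ p k ≤ 1) (K k₀ n M : ℕ) (U : Finset ℕ)
    (hU : ∀ u ∈ U, M + 1 ≤ u) :
    EB p M (Gi K k₀ n (insert M U)) ≤ EB p M (Gi K k₀ n U) + w p (M + 1) n U M := by
  classical
  by_cases h1 : n < M
  · have : w p (M + 1) n U M = 0 := by unfold w; rw [if_pos h1]
    rw [this, add_zero]
    exact EB_mono hp M _ _ (fun B _ => Gi_diff K k₀ n M U B (fun h => by omega))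
  · by_cases h2 : M + 1 ≤ n - M
    · by_cases h3 : n - M ∈ U
      · have : w p (M + 1) n U M = 1 := by unfold w; rw [if_neg h1, if_pos h2, if_pos h3]
        rw [this, ← EB_const p 1 M, ← EB_add]
        refine EB_mono hp M _ _ (fun B _ => ?_)
        have e1 := Gi_le_one K k₀ n (insert M U) B
        have e2 := Gi_nonneg K k₀ n U B
        linarith
      · have : w p (M + 1) n U M = 0 := by unfold w; rw [if_neg h1, if_pos h2, if_neg h3]
        rw [this, add_zero]
        refine EB_mono hp M _ _ (fun B hB => Gi_diff K k₀ n M U B (fun h => ?_))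
        have h4 := h.2.1
        rw [Finset.mem_union] at h4
        rcases h4 with h4 | h4
        · have := Finset.mem_range.mp (hB h4); omega
        · exact h3 h4
    · by_cases h3 : n - M = M
      · have : w p (M + 1) n U M = 0 := by unfold w; rw [if_neg h1, if_neg h2, if_pos h3]
        rw [this, add_zero]
        exact EB_mono hp M _ _ (fun B _ => Gi_diff K k₀ n M U B (fun h => h.2.2 h3))
      · have : w p (M + 1) n U M = p (n - M) := by unfold w; rw [if_neg h1, if_neg h2, if_neg h3]
        rw [this, ← EB_mem hp (n - M) M (by omega), ← EB_add]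
        refine EB_mono hp M _ _ (fun B hB => ?_)
        by_cases h4 : n - M ∈ B
        · rw [if_pos h4]
          have e1 := Gi_le_one K k₀ n (insert M U) B
          have e2 := Gi_nonneg K k₀ n U B
          linarith
        · rw [if_neg h4, add_zero]
          refine Gi_diff K k₀ n M U B (fun h => ?_)
          have h5 := h.2.1
          rw [Finset.mem_union] at h5
          rcases h5 with h5 | h5
          · exact h4 h5
          · have := hU _ h5; omega

theorem main {p : ℕ → ℝ} (hp : ∀ k, 0 ≤ p k ∧ p k ≤ 1) (K k₀ n m : ℕ) (hnm : n ≠ m) :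
    ∀ (M : ℕ) (U : Finset ℕ), (∀ u ∈ U, M ≤ u) →
      EB p M (fun B => Gi K k₀ n U B * Gi K k₀ m U B) ≤ EB p M (Gi K k₀ n U) * EB p M (Gi K k₀ m U) +
        ∑ k ∈ range M, p k * w p M n U k * w p M m U k := by
  intro M
  induction M with
  | zero =>
    intro U _
    rw [EB, EB, EB]
    simp
  | succ M ih =>
    intro U hU
    have hins : ∀ j : ℕ, (fun B => Gi K k₀ j U (insert M B)) = Gi K k₀ j (insert M U) := by
      intro j
      funext B
      unfold Gi
      rw [Finset.insert_union, Finset.union_insert]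
    have hl : EB p (M + 1) (fun B => Gi K k₀ n U B * Gi K k₀ m U B) =
        p M * EB p M (fun B => Gi K k₀ n (insert M U) B * Gi K k₀ m (insert M U) B) +
          (1 - p M) * EB p M (fun B => Gi K k₀ n U B * Gi K k₀ m U B) := by
      rw [EB]
      have e : (fun B => Gi K k₀ n U (insert M B) * Gi K k₀ m U (insert M B)) =
          fun B => Gi K k₀ n (insert M U) B * Gi K k₀ m (insert M U) B := by
        funext B
        rw [← congrFun (hins n) B, ← congrFun (hins m) B]
      rw [e]
    have hr : ∀ j : ℕ, EB p (M + 1) (Gi K k₀ j U) =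
        p M * EB p M (Gi K k₀ j (insert M U)) + (1 - p M) * EB p M (Gi K k₀ j U) := by
      intro j
      rw [EB, hins j]
    have i1 := ih (insert M U) (fun u hu => by
      rw [Finset.mem_insert] at hu
      rcases hu with rfl | hu
      · exact le_rfl
      · have := hU u hu; omega)
    have i2 := ih U (fun u hu => by have := hU u hu; omega)
    rw [hl, hr n, hr m, Finset.sum_range_succ]
    set a := EB p M (Gi K k₀ n U)
    set a' := EB p M (Gi K k₀ n (insert M U))
    set b := EB p M (Gi K k₀ m U)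
    set b' := EB p M (Gi K k₀ m (insert M U))
    have hM := hp M
    have ha1 : a ≤ a' := EB_mono hp M _ _ (fun B _ => Gi_mono K k₀ n M U B)
    have hb1 : b ≤ b' := EB_mono hp M _ _ (fun B _ => Gi_mono K k₀ m M U B)
    have ha2 : a' ≤ a + w p (M + 1) n U M := diff_le hp K k₀ n M U hU
    have hb2 : b' ≤ b + w p (M + 1) m U M := diff_le hp K k₀ m M U hU
    have hsum : p M * ∑ k ∈ range M, p k * w p M n (insert M U) k * w p M m (insert M U) k +
        (1 - p M) * ∑ k ∈ range M, p k * w p M n U k * w p M m U k =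
        ∑ k ∈ range M, p k * w p (M + 1) n U k * w p (M + 1) m U k := by
      rw [Finset.mul_sum, Finset.mul_sum, ← Finset.sum_add_distrib]
      refine Finset.sum_congr rfl fun k hk => ?_
      have hk' := Finset.mem_range.mp hk
      by_cases hn : n = k + M
      · have hm : m ≠ k + M := fun h => hnm (hn.trans h.symm)
        obtain ⟨e1, e2⟩ := w_same p M m U k hk' hm
        obtain ⟨e3, e4, e5⟩ := w_spec p M U k hk' hU
        rw [← hn] at e3 e4 e5
        rw [e1, e2, e3, e4, e5]
        ring
      · obtain ⟨e1, e2⟩ := w_same p M n U k hk' hn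
        by_cases hm : m = k + M
        · obtain ⟨e3, e4, e5⟩ := w_spec p M U k hk' hU
          rw [← hm] at e3 e4 e5
          rw [e1, e2, e3, e4, e5]
          ring
        · obtain ⟨e3, e4⟩ := w_same p M m U k hk' hm
          rw [e1, e2, e3, e4]
          ring
    have hprod : p M * (1 - p M) * ((a' - a) * (b' - b)) ≤ p M * w p (M + 1) n U M * w p (M + 1) m U M := by
      have e1 : (a' - a) * (b' - b) ≤ w p (M + 1) n U M * w p (M + 1) m U M :=
        mul_le_mul (by linarith) (by linarith) (by linarith) (w_nonneg hp _ _ _ _)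
      have e2 : 0 ≤ (a' - a) * (b' - b) := mul_nonneg (by linarith) (by linarith)
      have e3 : p M * (1 - p M) ≤ p M := by nlinarith [hM.1, hM.2]
      calc p M * (1 - p M) * ((a' - a) * (b' - b)) ≤ p M * ((a' - a) * (b' - b)) :=
            mul_le_mul_of_nonneg_right e3 e2
        _ ≤ p M * (w p (M + 1) n U M * w p (M + 1) m U M) := mul_le_mul_of_nonneg_left e1 hM.1
        _ = _ := by ring
    have j1 := mul_le_mul_of_nonneg_left i1 hM.1
    have j2 := mul_le_mul_of_nonneg_left i2 (sub_nonneg.mpr hM.2)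
    have hid : p M * (a' * b') + (1 - p M) * (a * b) =
        (p M * a' + (1 - p M) * a) * (p M * b' + (1 - p M) * b) + p M * (1 - p M) * ((a' - a) * (b' - b)) := by
      ring
    rw [mul_add] at j1 j2
    linarith

theorem t_COV2 : S_COV2 := by
  intro p hp K k₀ M n m hnm
  have h1 := main hp K k₀ n m hnm M ∅ (fun u hu => absurd hu (Finset.notMem_empty u))
  have hGi : ∀ j : ℕ, Gi K k₀ j ∅ = fun B => if K ≤ rr k₀ j B then (1 : ℝ) else 0 := by
    intro j
    funext B
    unfold Gi
    rw [Finset.union_empty]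
  have hmul : (fun B => Gi K k₀ n ∅ B * Gi K k₀ m ∅ B) =
      fun B => (if K ≤ rr k₀ n B then (1 : ℝ) else 0) * (if K ≤ rr k₀ m B then (1 : ℝ) else 0) := by
    funext B
    rw [congrFun (hGi n) B, congrFun (hGi m) B]
  rw [hmul, hGi n, hGi m] at h1
  refine h1.trans ?_
  have hqq : ∀ j k : ℕ, 0 ≤ qq p j k := by
    intro j k
    unfold qq
    split_ifs
    · exact (hp _).1
    · exact le_rfl
  have hw : ∀ j k : ℕ, w p M j ∅ k ≤ qq p j k := by
    intro j k
    unfold w
    by_cases h : j < k
    · rw [if_pos h]; exact hqq j k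
    · rw [if_neg h]
      by_cases h2 : M ≤ j - k
      · rw [if_pos h2, if_neg (Finset.notMem_empty _)]; exact hqq j k
      · rw [if_neg h2]
        by_cases h3 : j - k = k
        · rw [if_pos h3]; exact hqq j k
        · rw [if_neg h3]
          unfold qq
          rw [if_pos (by omega)]
  have hsum : ∑ k ∈ range M, p k * w p M n ∅ k * w p M m ∅ k ≤
      ∑ k ∈ range M, p k * qq p n k * qq p m k := by
    refine Finset.sum_le_sum fun k _ => ?_
    have g1 := mul_le_mul_of_nonneg_left (hw n k) (hp k).1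
    exact mul_le_mul g1 (hw m k) (w_nonneg hp _ _ _ _) (mul_nonneg (hp k).1 (hqq _ _))
  linarith

end Pool.Agent.V5helper36.IR
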